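import Mathlib
import Pool.Agent.H77.TF.Stm

/-!
# Module UNI
-/

set_option autoImplicit false

open MvPolynomial Module

namespace Pool.Agent.H93.TF

open Pool.Agent.H77.TF

/-- **Module UNI.** -/
theorem uni (h1 : S_PRI) (h2 : S_MOO) : S_UNI := by
  intro K _ _ m u c hc
  by_contra hu
  obtain ⟨π, hπ, hdvd⟩ : ∃ π : MvPolynomial (Fin (m + 1)) K,
      (Ideal.span {π}).IsPrime ∧ π ∣ (Matrix.of c).det := by
    by_cases h0 : (Matrix.of c).det = 0
    · refine ⟨0, ?_, ?_⟩
      · rw [Ideal.span_singleton_eq_bot.2 rfl]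
        exact Ideal.isPrime_bot
      · rw [h0]
    · obtain ⟨p, hp, hpd⟩ := WfDvdMonoid.exists_irreducible_factor hu h0
      exact ⟨p, (Ideal.span_singleton_prime hp.ne_zero).2 hp.prime, hpd⟩
  let I : Ideal (MvPolynomial (Fin (m + 1)) K) := Ideal.span {π}
  have hI : I.IsPrime := hπ
  let R : Type := MvPolynomial (Fin (m + 1)) K ⧸ I
  let F : Type := FractionRing R
  let f : MvPolynomial (Fin (m + 1)) K →ₐ[K] F :=
    (IsScalarTower.toAlgHom K R F).comp (Ideal.Quotient.mkₐ K I)
  have hf : ∀ y, f y = 0 → π ∣ y := by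
    intro y hy
    have h3 : algebraMap R F (Ideal.Quotient.mk I y) = 0 := hy
    have h4 : Ideal.Quotient.mk I y = 0 :=
      (map_eq_zero_iff _ (IsFractionRing.injective R F)).1 h3
    exact Ideal.mem_span_singleton.1 (Ideal.Quotient.eq_zero_iff_mem.1 h4)
  have hf' : ∀ y, π ∣ y → f y = 0 := by
    intro y hy
    change algebraMap R F (Ideal.Quotient.mk I y) = 0
    rw [Ideal.Quotient.eq_zero_iff_mem.2 (Ideal.mem_span_singleton.2 hy), map_zero]
  -- the matrix is singular
  have hdet : ((Matrix.of c).map f).det = 0 := by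
    have h3 : ((Matrix.of c).map f).det = f (Matrix.of c).det := by
      rw [AlgHom.map_det]
      rfl
    rw [h3]
    exact hf' _ hdvd
  obtain ⟨d, hd, hdc⟩ := Matrix.exists_vecMul_eq_zero_iff.2 hdet
  have hrel : ∀ i, ∑ k, d k * (f (X i)) ^ (Fintype.card K ^ (k : ℕ)) = 0 := by
    intro i
    have h3 : ∀ k : Fin m, (f (X i)) ^ (Fintype.card K ^ (k : ℕ)) = ∑ j, f (c k j) * f (u j i) := by
      intro k
      have h4 := congrFun (hc k) i
      rw [Finset.sum_apply] at h4
      have h5 := congrArg f h4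
      rw [map_sum] at h5
      unfold frob at h5
      rw [map_pow] at h5
      rw [h5]
      refine Finset.sum_congr rfl fun j _ => ?_
      rw [Pi.smul_apply, smul_eq_mul, map_mul]
    calc ∑ k, d k * (f (X i)) ^ (Fintype.card K ^ (k : ℕ))
        = ∑ k, ∑ j, d k * f (c k j) * f (u j i) := by
          refine Finset.sum_congr rfl fun k _ => ?_
          rw [h3, Finset.mul_sum]
          exact Finset.sum_congr rfl fun j _ => (mul_assoc _ _ _).symm
      _ = ∑ j, (∑ k, d k * f (c k j)) * f (u j i) := by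
          rw [Finset.sum_comm]
          exact Finset.sum_congr rfl fun j _ => (Finset.sum_mul _ _ _).symm
      _ = 0 := by
          refine Finset.sum_eq_zero fun j _ => ?_
          have h4 := congrFun hdc j
          have h5 : ∑ k, d k * f (c k j) = 0 := h4
          rw [h5, zero_mul]
  have hfin := h2 K F (m + 1) m (fun i => f (X i)) d hd hrel
  -- two independent forms divisible by `π`
  let Λ : (Fin (m + 1) → K) →ₗ[K] F := Fintype.linearCombination K fun i => f (X i)
  have hΛ : ∀ a : Fin (m + 1) → K, Λ a = f (lin a) := by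
    intro a
    change Fintype.linearCombination K (fun i => f (X i)) a = _
    unfold lin
    rw [Fintype.linearCombination_apply, map_sum]
    refine Finset.sum_congr rfl fun i _ => ?_
    rw [map_mul, Algebra.smul_def]
    congr 1
  have hrange : LinearMap.range Λ = Submodule.span K (Set.range fun i => f (X i)) :=
    Fintype.range_linearCombination K _
  have hrk := LinearMap.finrank_range_add_finrank_ker Λ
  rw [hrange, finrank_fintype_fun_eq_card, Fintype.card_fin] at hrk
  have hker : 1 < finrank K (LinearMap.ker Λ) := by omega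
  obtain ⟨a, ha⟩ := Module.finrank_pos_iff_exists_ne_zero.1 (lt_trans zero_lt_one hker)
  obtain ⟨b, hab⟩ := exists_linearIndependent_pair_of_one_lt_finrank hker ha
  have ha0 : (a : Fin (m + 1) → K) ≠ 0 := fun h => ha (Subtype.ext h)
  have hπa : π ∣ lin (a : Fin (m + 1) → K) := hf _ (by rw [← hΛ]; exact a.2)
  have hπb : π ∣ lin (b : Fin (m + 1) → K) := hf _ (by rw [← hΛ]; exact b.2)
  obtain ⟨hp, hprop⟩ := h1 K (m + 1) a ha0
  obtain ⟨t, ht⟩ := hπa
  have hπu : ¬ IsUnit π := fun h => hI.ne_top (Ideal.span_singleton_eq_top.2 h)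
  have htu : IsUnit t := (hp.irreducible.isUnit_or_isUnit ht).resolve_left hπu
  have hdv : lin (a : Fin (m + 1) → K) ∣ π := by
    rw [ht]
    exact htu.mul_right_dvd.2 dvd_rfl
  obtain ⟨s, hs⟩ := hprop b (hdv.trans hπb)
  have hs' : b = s • a := Subtype.ext hs
  have h3 := LinearIndependent.pair_iff.1 hab s (-1) (by rw [hs']; simp)
  exact absurd h3.2 (by simp)

end Pool.Agent.H93.TF
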